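import Pool.Agent.KS6_15.RF.Final

set_option autoImplicit false

/-!
# Nontrivial eigenvalues of the Redheffer matrix: exact orders

The nontrivial eigenvalues of the Redheffer matrix `A(n)` need not lie in the unit disc, and here
is how large they get. For infinitely many `n` some, in fact at least `log n / log log n`, of them
have modulus larger than `c log log n`, which is the order of Vaughan's upper bound under the
Riemann hypothesis. For every `R` up to `c log log n` a positive proportion `c / R` of the about
`log n` nontrivial eigenvalues has modulus larger than `R`, for many `n`, and the order `1 / R` of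
this proportion is exact: for all large `n` and all `R` up to `log n / log log n` at most
`24 log n / R` nontrivial eigenvalues have modulus larger than `R`.
-/

namespace Pool.Agent.Results.MP_8a4b73_nt.ExactOrder

/-- The Redheffer matrix `A(n)`: with rows and columns numbered `1, ..., n`, the entry in row `i`
and column `j` is `1` if `j = 1` or `i ∣ j`, and `0` otherwise. (The index `i : Fin n` stands for
the number `i + 1`.) -/
def redheffer (n : ℕ) : Matrix (Fin n) (Fin n) ℂ :=
  fun i j => if (j : ℕ) = 0 ∨ ((i : ℕ) + 1) ∣ ((j : ℕ) + 1) then 1 else 0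

/-- The eigenvalues of `A(n)` with algebraic multiplicity (roots of the characteristic
polynomial). -/
noncomputable def eigenvalues (n : ℕ) : Multiset ℂ := (redheffer n).charpoly.roots

/-- The eigenvalues left after removing `n - ⌊log₂ n⌋ - 1` copies of `1` and one copy each of `a`
and `b`. For `a`, `b` the two dominant real eigenvalues these are the nontrivial eigenvalues. -/
noncomputable def remaining (n : ℕ) (a b : ℂ) : Multiset ℂ :=
  eigenvalues n - Multiset.replicate (n - Nat.log 2 n - 1) 1 - {a, b}

/-- The number (with multiplicity) of the remaining eigenvalues of modulus larger than `R`. -/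
noncomputable def large (n : ℕ) (a b : ℂ) (R : ℝ) : ℕ :=
  Multiset.card ((remaining n a b).filter (fun x => R < ‖x‖))

/-- There is `c > 0` such that:
(1) for some `K` and all large `X`, and all `1 ≤ R ≤ c log log X`, there is `Y ∈ [X, X ^ K]` such
that for at least `Y ^ (1 - 1 / (1000 R))` integers `n ∈ [Y, 2 Y]`, whichever two eigenvalues `a`,
`b` are removed from the spectrum of `A(n)` together with `n - ⌊log₂ n⌋ - 1` copies of `1`, at
least `c log n / R` of the remaining eigenvalues have modulus larger than `R`;
(2) for infinitely many `n`, whichever `a`, `b` are removed, at least `log n / log log n` of the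
remaining eigenvalues have modulus larger than `c log log n`.
Moreover (3), for all large `n` the matrix `A(n)` has real eigenvalues `a ≥ 1 + √n / 2` and
`b ≤ 1 - √n / 2` such that after their removal, for all `1 ≤ R ≤ log n / log log n`, at most
`24 log n / R` of the remaining eigenvalues have modulus larger than `R`. -/
theorem result :
    (∃ c : ℝ, 0 < c ∧
      (∃ K X0 : ℕ, ∀ X : ℕ, X0 ≤ X → ∀ R : ℝ, 1 ≤ R → R ≤ c * Real.log (Real.log X) →
        ∃ Y : ℕ, X ≤ Y ∧ Y ≤ X ^ K ∧ (Y : ℝ) ^ (1 - 1 / (1000 * R)) ≤
          ({n : ℕ | Y ≤ n ∧ n ≤ 2 * Y ∧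
            ∀ a b : ℂ, c * Real.log n / R ≤ (large n a b R : ℝ)}.ncard : ℝ)) ∧
      (∀ N : ℕ, ∃ n ≥ N, ∀ a b : ℂ, Real.log n / Real.log (Real.log n) ≤
        (large n a b (c * Real.log (Real.log n)) : ℝ))) ∧
    (∃ n0 : ℕ, ∀ n : ℕ, n0 ≤ n → ∃ a b : ℝ, (a : ℂ) ∈ eigenvalues n ∧ (b : ℂ) ∈ eigenvalues n ∧
      1 + √n / 2 ≤ a ∧ b ≤ 1 - √n / 2 ∧
      ∀ R : ℝ, 1 ≤ R → R ≤ Real.log n / Real.log (Real.log n) →
        (large n a b R : ℝ) ≤ 24 * Real.log n / R) :=
  ⟨Pool.Agent.KS6_15.RF.lower, Pool.Agent.KS6_15.RF.upper⟩

end Pool.Agent.Results.MP_8a4b73_nt.ExactOrder
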